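import Pool.Agent.Helper24.TU.Defs

/-!
TW (MP_464c42_nt). The points of `ℙⁿ` at which the radicals of the values of `n + 2` forms have separate bounds.
(helper24)
-/

set_option autoImplicit false

namespace Pool.Agent.Helper24.TW

open Pool.Agent.Helper24.TU Pool.Agent.Helper87.Camp

/-- The primitive integer vectors `x` of height at most `B` at which no form vanishes and the radical outside `S` of
the value of the form `i` is at most `H(x) ^ (y i * lam)`. -/
def ptsW {n : ℕ} (S : Finset ℕ) (L : Matrix (Fin (n + 2)) (Fin (n + 1)) ℤ) (y : Fin (n + 2) → ℝ)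
    (lam : ℝ) (B : ℕ) : Set (Fin (n + 1) → ℤ) :=
  {x | (∀ d : ℤ, (∀ j, d ∣ x j) → IsUnit d) ∧
    (∀ i, form L i x ≠ 0 ∧ (radS S (form L i x) : ℝ) ≤ (ht x : ℝ) ^ (y i * lam)) ∧ ht x ≤ B}

end Pool.Agent.Helper24.TW
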