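import Pool.Agent.Helper24.TW.Defs
import Pool.Agent.Helper97.RP.LowTrunc

/-!
TW-2 (MP_464c42_nt). Lower bound, separate bounds for the radicals.

Proof. As `low_trunc` (`Helper97/RP/LowTrunc.lean`) with unequal boxes. Order of the entries of the family (`n = k + 2`):
`u = (h, -h, 2^m v_0, …, 2^m v_(k-1), 2^m w, -2^m (w + ∑ v))` with `1 ≤ h ≤ Z 0`, `1 ≤ v_i ≤ Z (2 + i)`, `1 ≤ w ≤ Z n`, `h` odd and prime to `w`,
`16 w > Z n`, where `Z i = ⌊(B / D) ^ (y i * lam) / E⌋`; as `y` is monotone, `w + ∑ v ≤ (k + 1) Z n ≤ (k + 1) Z (n + 1)`, and the entries `1` and `0`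
have the same size `h ≤ Z 0 ≤ Z 1`. Number of pairs `(w, h)`: at least
`3 / 16 * Z 0 * Z n`, since at least `Z 0 / 2` of the `h` are odd, and for odd `d ≥ 3` at most `(Z 0 / d) (Z n / d)` pairs are
divisible by `d`, `∑_{d odd, d ≥ 3} 1 / d^2 ≤ 1 / 4` (telescoping: `1 / (2 j + 1)^2 ≤ (1 / j - 1 / (j + 1)) / 4`), and at most `Z 0 * Z n / 16`
pairs have `16 w ≤ Z n`. The largest entries `2^m w`, `2^m (w + ∑ v)` have sizes between `2^m Z n / 16` and `(k + 1) 2^m Z n`, so the height of the point is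
between `B / D` and `B` as before, with `2^m` the largest power with `2^m A (k + 1) Z n ≤ B`.
(helper24, helper97)
-/

set_option autoImplicit false

open Pool.Agent.Helper87.Camp Pool.Agent.Helper24.TU

namespace Pool.Agent.Helper24.TW

open Pool.Agent.Helper97.RP.LT (radS_le Realize)

private theorem odd_sum (Z : ℕ) :
    ∑ j ∈ Finset.Icc 1 Z, (1 : ℝ) / ((2 * j + 1 : ℕ) : ℝ) ^ 2 ≤ 1 / 4 := by
  have key : ∑ j ∈ Finset.Icc 1 Z, (1 : ℝ) / ((2 * j + 1 : ℕ) : ℝ) ^ 2 ≤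
      1 / 4 - 1 / (4 * ((Z : ℝ) + 1)) := by
    induction Z with
    | zero => norm_num
    | succ n ih =>
      rw [Finset.sum_Icc_succ_top (by omega)]
      have h1 : (1 : ℝ) / ((2 * (n + 1) + 1 : ℕ) : ℝ) ^ 2 ≤
          1 / (4 * ((n : ℝ) + 1)) - 1 / (4 * (((n + 1 : ℕ) : ℝ) + 1)) := by
        push_cast
        rw [div_sub_div _ _ (by positivity) (by positivity),
          div_le_div_iff₀ (by positivity) (by positivity)]
        nlinarith [Nat.cast_nonneg (α := ℝ) n]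
      linarith
  have : (0 : ℝ) ≤ 1 / (4 * ((Z : ℝ) + 1)) := by positivity
  linarith

private theorem card_odd (Z : ℕ) :
    (Z : ℝ) / 2 ≤ (((Finset.Icc 1 Z).filter (fun h => ¬ 2 ∣ h)).card : ℝ) := by
  have h1 : ((Finset.Icc 1 Z).filter (fun h => 2 ∣ h)).card = Z / 2 :=
    Nat.Ioc_filter_dvd_card_eq_div Z 2
  have h2 := Finset.card_filter_add_card_filter_not (s := Finset.Icc 1 Z) (fun h : ℕ => 2 ∣ h)
  rw [h1, Nat.card_Icc] at h2
  have h3 : Z ≤ 2 * ((Finset.Icc 1 Z).filter (fun h => ¬ 2 ∣ h)).card := by omega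
  have h4 : (Z : ℝ) ≤ 2 * (((Finset.Icc 1 Z).filter (fun h => ¬ 2 ∣ h)).card : ℝ) := by
    exact_mod_cast h3
  linarith

/-- Pairs of coprime numbers in a box with different sides, the second odd, the first large. -/
theorem pairs_card (Y Z : ℕ) :
    3 / 16 * ((Y : ℝ) * Z) ≤
      (((Finset.Icc 1 Y ×ˢ Finset.Icc 1 Z).filter
        (fun w => Nat.Coprime w.1 w.2 ∧ ¬ 2 ∣ w.2 ∧ Y < 16 * w.1)).card : ℝ) := by
  classical
  obtain ⟨G, hG⟩ : ∃ G : Finset (ℕ × ℕ), G =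
    Finset.Icc 1 Y ×ˢ (Finset.Icc 1 Z).filter (fun h => ¬ 2 ∣ h) := ⟨_, rfl⟩
  obtain ⟨R, hR⟩ : ∃ R : Finset (ℕ × ℕ), R =
    (Finset.Icc 1 Y ×ˢ Finset.Icc 1 Z).filter
      (fun w => Nat.Coprime w.1 w.2 ∧ ¬ 2 ∣ w.2 ∧ Y < 16 * w.1) := ⟨_, rfl⟩
  obtain ⟨Q, hQ⟩ : ∃ Q : Finset (ℕ × ℕ), Q = (Finset.Icc 1 Z).biUnion (fun j =>
        (Finset.Icc 1 (Y / (2 * j + 1)) ×ˢ Finset.Icc 1 (Z / (2 * j + 1))).image
          (fun w => ((2 * j + 1) * w.1, (2 * j + 1) * w.2))) := ⟨_, rfl⟩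
  rw [← hR]
  have hGc : (Y : ℝ) * ((Z : ℝ) / 2) ≤ (G.card : ℝ) := by
    rw [hG, Finset.card_product, Nat.card_Icc]
    simp only [Nat.add_sub_cancel]
    push_cast
    exact mul_le_mul_of_nonneg_left (card_odd Z) (Nat.cast_nonneg _)
  have hQc : (Q.card : ℝ) ≤ 1 / 4 * ((Y : ℝ) * Z) := by
    have h1 : Q.card ≤ ∑ j ∈ Finset.Icc 1 Z, (Y / (2 * j + 1)) * (Z / (2 * j + 1)) := by
      rw [hQ]
      refine Finset.card_biUnion_le.trans ?_
      apply Finset.sum_le_sum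
      intro j _
      refine Finset.card_image_le.trans ?_
      rw [Finset.card_product, Nat.card_Icc, Nat.card_Icc]
      simp only [Nat.add_sub_cancel]
      exact le_rfl
    have h2 : ((∑ j ∈ Finset.Icc 1 Z, (Y / (2 * j + 1)) * (Z / (2 * j + 1)) : ℕ) : ℝ) ≤
        ∑ j ∈ Finset.Icc 1 Z, (1 : ℝ) / ((2 * j + 1 : ℕ) : ℝ) ^ 2 * ((Y : ℝ) * Z) := by
      rw [Nat.cast_sum]
      apply Finset.sum_le_sum
      intro j _
      have h3 : ((Y / (2 * j + 1) : ℕ) : ℝ) ≤ (Y : ℝ) / ((2 * j + 1 : ℕ) : ℝ) := Nat.cast_div_le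
      have h4 : ((Z / (2 * j + 1) : ℕ) : ℝ) ≤ (Z : ℝ) / ((2 * j + 1 : ℕ) : ℝ) := Nat.cast_div_le
      rw [Nat.cast_mul]
      calc ((Y / (2 * j + 1) : ℕ) : ℝ) * ((Z / (2 * j + 1) : ℕ) : ℝ)
          ≤ ((Y : ℝ) / ((2 * j + 1 : ℕ) : ℝ)) * ((Z : ℝ) / ((2 * j + 1 : ℕ) : ℝ)) :=
            mul_le_mul h3 h4 (Nat.cast_nonneg _) (by positivity)
        _ = _ := by ring
    rw [← Finset.sum_mul] at h2
    calc (Q.card : ℝ) ≤ ((∑ j ∈ Finset.Icc 1 Z, (Y / (2 * j + 1)) * (Z / (2 * j + 1)) : ℕ) : ℝ) := by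
          exact_mod_cast h1
      _ ≤ _ := h2
      _ ≤ _ := mul_le_mul_of_nonneg_right (odd_sum Z) (by positivity)
  have hsub : G ⊆ (R ∪ Q) ∪ (Finset.Icc 1 (Y / 16) ×ˢ Finset.Icc 1 Z) := by
    intro w hw
    rw [hG, Finset.mem_product, Finset.mem_filter, Finset.mem_Icc, Finset.mem_Icc] at hw
    obtain ⟨⟨h1, h2⟩, ⟨h3, h4⟩, h5⟩ := hw
    rw [Finset.mem_union, Finset.mem_union]
    by_cases h : Y < 16 * w.1
    · left
      by_cases hc : Nat.Coprime w.1 w.2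
      · left
        rw [hR, Finset.mem_filter, Finset.mem_product, Finset.mem_Icc, Finset.mem_Icc]
        exact ⟨⟨⟨h1, h2⟩, h3, h4⟩, hc, h5, h⟩
      · right
        have hg : Nat.gcd w.1 w.2 ≠ 1 := hc
        have hgpos : 0 < Nat.gcd w.1 w.2 := Nat.gcd_pos_of_pos_left _ (by omega)
        have hgodd : ¬ 2 ∣ Nat.gcd w.1 w.2 := fun h' => h5 (h'.trans (Nat.gcd_dvd_right _ _))
        obtain ⟨a, ha⟩ := Nat.gcd_dvd_left w.1 w.2
        obtain ⟨b, hb⟩ := Nat.gcd_dvd_right w.1 w.2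
        have hgle : Nat.gcd w.1 w.2 ≤ Z :=
          (Nat.le_of_dvd (by omega) (Nat.gcd_dvd_right _ _)).trans h4
        obtain ⟨j, hj⟩ : ∃ j, Nat.gcd w.1 w.2 = 2 * j + 1 := ⟨Nat.gcd w.1 w.2 / 2, by omega⟩
        rw [hj] at ha hb hg hgle
        rw [hQ, Finset.mem_biUnion]
        refine ⟨j, by rw [Finset.mem_Icc]; omega, ?_⟩
        rw [Finset.mem_image]
        refine ⟨(a, b), ?_, Prod.ext ha.symm hb.symm⟩
        rw [Finset.mem_product, Finset.mem_Icc, Finset.mem_Icc]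
        refine ⟨⟨?_, ?_⟩, ⟨?_, ?_⟩⟩
        · rcases Nat.eq_zero_or_pos a with h | h
          · rw [h, mul_zero] at ha; omega
          · exact h
        · rw [Nat.le_div_iff_mul_le (by omega), mul_comm]
          exact ha ▸ h2
        · rcases Nat.eq_zero_or_pos b with h | h
          · rw [h, mul_zero] at hb; omega
          · exact h
        · rw [Nat.le_div_iff_mul_le (by omega), mul_comm]
          exact hb ▸ h4
    · right
      rw [Finset.mem_product, Finset.mem_Icc, Finset.mem_Icc]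
      exact ⟨⟨h1, by omega⟩, h3, h4⟩
  have hle : G.card ≤ R.card + Q.card + Y / 16 * Z := by
    calc G.card ≤ ((R ∪ Q) ∪ (Finset.Icc 1 (Y / 16) ×ˢ Finset.Icc 1 Z)).card :=
          Finset.card_le_card hsub
      _ ≤ (R ∪ Q).card + (Finset.Icc 1 (Y / 16) ×ˢ Finset.Icc 1 Z).card := Finset.card_union_le _ _
      _ ≤ (R.card + Q.card) + (Finset.Icc 1 (Y / 16) ×ˢ Finset.Icc 1 Z).card :=
          Nat.add_le_add_right (Finset.card_union_le _ _) _
      _ = R.card + Q.card + Y / 16 * Z := by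
          rw [Finset.card_product, Nat.card_Icc, Nat.card_Icc]
          simp only [Nat.add_sub_cancel]
  have hle' : (G.card : ℝ) ≤ R.card + Q.card + ((Y / 16 : ℕ) : ℝ) * Z := by exact_mod_cast hle
  have h4 : ((Y / 16 : ℕ) : ℝ) ≤ (Y : ℝ) / 16 := by
    have := @Nat.cast_div_le ℝ _ _ _ Y 16
    simpa using this
  have h5 : ((Y / 16 : ℕ) : ℝ) * Z ≤ (Y : ℝ) / 16 * Z :=
    mul_le_mul_of_nonneg_right h4 (Nat.cast_nonneg _)
  have h6 : (Y : ℝ) / 16 * Z = 1 / 16 * ((Y : ℝ) * Z) := by ring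
  have h7 : (Y : ℝ) * ((Z : ℝ) / 2) = 1 / 2 * ((Y : ℝ) * Z) := by ring
  linarith

variable {k : ℕ}

/-- The position of `v i`. -/
def iv (i : Fin k) : Fin (k + 4) := Fin.succ (Fin.succ (Fin.castSucc (Fin.castSucc i)))

/-- The position of `w`. -/
def iw (k : ℕ) : Fin (k + 4) := Fin.succ (Fin.succ (Fin.castSucc (Fin.last k)))

/-- The family of primitive zero sum vectors. -/
def famW (m w h : ℕ) (v : Fin k → ℕ) : Fin (k + 4) → ℤ :=
  Fin.cons (α := fun _ => ℤ) (h : ℤ) (Fin.cons (α := fun _ => ℤ) (-(h : ℤ))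
    (Fin.snoc (α := fun _ => ℤ) (Fin.snoc (α := fun _ => ℤ)
      (fun i => ((2 ^ m * v i : ℕ) : ℤ)) ((2 ^ m * w : ℕ) : ℤ))
        (-((2 ^ m * (w + ∑ i, v i) : ℕ) : ℤ))))

theorem famW_sum (m w h : ℕ) (v : Fin k → ℕ) : ∑ i, famW m w h v i = 0 := by
  unfold famW
  rw [Fin.sum_cons, Fin.sum_cons, Fin.sum_snoc, Fin.sum_snoc]
  push_cast
  rw [mul_add, Finset.mul_sum]
  ring

theorem famW_zero (m w h : ℕ) (v : Fin k → ℕ) : famW m w h v 0 = (h : ℤ) := rfl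

theorem famW_w (m w h : ℕ) (v : Fin k → ℕ) :
    famW m w h v (iw k) = ((2 ^ m * w : ℕ) : ℤ) := by
  unfold famW iw
  rw [Fin.cons_succ, Fin.cons_succ, Fin.snoc_castSucc, Fin.snoc_last]

theorem famW_v (m w h : ℕ) (v : Fin k → ℕ) (i : Fin k) :
    famW m w h v (iv i) = ((2 ^ m * v i : ℕ) : ℤ) := by
  unfold famW iv
  rw [Fin.cons_succ, Fin.cons_succ, Fin.snoc_castSucc, Fin.snoc_castSucc]

theorem iv_le_iw (i : Fin k) : iv i ≤ iw k := by
  unfold iv iw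
  rw [Fin.le_def]
  simp only [Fin.val_succ, Fin.val_castSucc, Fin.val_last]
  omega

/-- Every entry is, up to sign, a power of two times a small number. -/
theorem famW_entry (m w h : ℕ) (v : Fin k → ℕ) (Z : Fin (k + 4) → ℕ) (hZ : Monotone Z)
    (hw : 1 ≤ w ∧ w ≤ Z (iw k)) (hh : 1 ≤ h ∧ h ≤ Z 0)
    (hv : ∀ i, 1 ≤ v i ∧ v i ≤ Z (iv i)) (i : Fin (k + 4)) :
    ∃ s b : ℕ, (famW m w h v i).natAbs = 2 ^ s * b ∧ s ≤ m ∧ 1 ≤ b ∧ b ≤ (k + 1) * Z i ∧
      b ≤ (k + 1) * Z (iw k) := by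
  have hk : ∀ z : ℕ, z ≤ (k + 1) * z := fun z => Nat.le_mul_of_pos_left z (Nat.succ_pos k)
  have h0w : Z 0 ≤ Z (iw k) := hZ (Fin.zero_le _)
  have hs : ∑ i, v i ≤ k * Z (iw k) := by
    calc ∑ i, v i ≤ ∑ _i : Fin k, Z (iw k) :=
          Finset.sum_le_sum fun i _ => (hv i).2.trans (hZ (iv_le_iw i))
      _ = k * Z (iw k) := by simp
  refine Fin.cases ?_ (fun i => Fin.cases ?_ (fun i => ?_) i) i
  · refine ⟨0, h, ?_, Nat.zero_le _, hh.1, hh.2.trans (hk _), (hh.2.trans h0w).trans (hk _)⟩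
    unfold famW
    rw [Fin.cons_zero, Int.natAbs_natCast, pow_zero, one_mul]
  · refine ⟨0, h, ?_, Nat.zero_le _, hh.1, (hh.2.trans (hZ (Fin.zero_le _))).trans (hk _),
      (hh.2.trans h0w).trans (hk _)⟩
    unfold famW
    rw [Fin.cons_succ, Fin.cons_zero, Int.natAbs_neg, Int.natAbs_natCast, pow_zero, one_mul]
  · refine Fin.lastCases ?_ (fun i => Fin.lastCases ?_ (fun i => ?_) i) i
    · have h1 : w + ∑ i, v i ≤ (k + 1) * Z (iw k) := by
        calc w + ∑ i, v i ≤ Z (iw k) + k * Z (iw k) := Nat.add_le_add hw.2 hs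
          _ = (k + 1) * Z (iw k) := by ring
      refine ⟨m, w + ∑ i, v i, ?_, le_rfl, by omega, h1.trans (Nat.mul_le_mul_left _ (hZ ?_)), h1⟩
      · unfold famW
        rw [Fin.cons_succ, Fin.cons_succ, Fin.snoc_last, Int.natAbs_neg, Int.natAbs_natCast]
      · unfold iw
        rw [Fin.succ_le_succ_iff, Fin.succ_le_succ_iff]
        exact Fin.le_last _
    · refine ⟨m, w, ?_, le_rfl, hw.1, hw.2.trans (hk _), hw.2.trans (hk _)⟩
      unfold famW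
      rw [Fin.cons_succ, Fin.cons_succ, Fin.snoc_castSucc, Fin.snoc_last, Int.natAbs_natCast]
    · refine ⟨m, v i, ?_, le_rfl, (hv i).1, (hv i).2.trans (hk _),
        ((hv i).2.trans (hZ (iv_le_iw i))).trans (hk _)⟩
      unfold famW
      rw [Fin.cons_succ, Fin.cons_succ, Fin.snoc_castSucc, Fin.snoc_castSucc, Int.natAbs_natCast]

theorem famW_prim (m w h : ℕ) (v : Fin k → ℕ) (hc : Nat.Coprime w h) (ho : ¬ 2 ∣ h)
    (d : ℤ) (hd : ∀ i, d ∣ famW m w h v i) : IsUnit d := by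
  have h1 := hd (iw k)
  have h2 := hd 0
  rw [famW_w] at h1
  rw [famW_zero] at h2
  have h3 : Nat.Coprime (2 ^ m * w) h := by
    apply Nat.Coprime.mul_left _ hc
    apply Nat.Coprime.pow_left
    exact (Nat.Prime.coprime_iff_not_dvd Nat.prime_two).2 ho
  have h4 : IsCoprime ((2 ^ m * w : ℕ) : ℤ) (h : ℤ) := Nat.isCoprime_iff_coprime.mpr h3
  exact h4.isUnit_of_dvd' h1 h2

/-- Two members of the family on the same line are equal. -/
theorem famW_inj (m w h w' h' : ℕ) (v v' : Fin k → ℕ) (hh : 1 ≤ h)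
    (hc : Nat.Coprime w h) (hc' : Nat.Coprime w' h')
    (hp : ∀ i j, famW m w h v i * famW m w' h' v' j = famW m w h v j * famW m w' h' v' i) :
    w = w' ∧ h = h' ∧ v = v' := by
  have h2 : 0 < 2 ^ m := pow_pos (by norm_num) m
  have e0 := hp (iw k) 0
  rw [famW_zero, famW_zero, famW_w, famW_w] at e0
  have e1 : 2 ^ m * w * h' = h * (2 ^ m * w') := by exact_mod_cast e0
  have e2 : w * h' = h * w' := by
    apply Nat.eq_of_mul_eq_mul_left h2
    linarith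
  have d1 : h ∣ h' := by
    apply hc.symm.dvd_of_dvd_mul_left
    rw [e2]
    exact Dvd.intro _ rfl
  have d2 : h' ∣ h := by
    apply hc'.symm.dvd_of_dvd_mul_right
    rw [← e2]
    exact Dvd.intro_left _ rfl
  have eh : h = h' := Nat.dvd_antisymm d1 d2
  subst eh
  have ew : w = w' := by
    apply Nat.eq_of_mul_eq_mul_left (by omega : 0 < h)
    linarith
  refine ⟨ew, rfl, ?_⟩
  funext i
  have e3 := hp (iv i) 0
  rw [famW_v, famW_v, famW_zero, famW_zero] at e3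
  have e4 : 2 ^ m * v i * h = h * (2 ^ m * v' i) := by exact_mod_cast e3
  apply Nat.eq_of_mul_eq_mul_left h2
  apply Nat.eq_of_mul_eq_mul_left (by omega : 0 < h)
  linarith

theorem low_w_aux (S : Finset ℕ) (L : Matrix (Fin (k + 2 + 2)) (Fin (k + 2 + 1)) ℤ)
    (hL : ∀ i, minor L i ≠ 0) (A : ℕ) (hA : 1 ≤ A) (hR : Realize L A)
    (lam : ℝ) (h0 : 0 < lam) (h1 : lam ≤ 1)
    (y : Fin (k + 2 + 2) → ℝ) (hy : ∀ i, 0 < y i ∧ y i ≤ 1) (hmy : Monotone y) :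
    ∃ c : ℝ, 0 < c ∧ ∃ B₀ : ℕ, ∀ B : ℕ, B₀ ≤ B →
      c * (B : ℝ) ^ ((∑ i, y i - y (Fin.last (k + 2 + 1)) - y 1) * lam) ≤
        ((ptsW S L y lam B).ncard : ℝ) := by
  classical
  have hA0 : (0 : ℝ) < A := by exact_mod_cast hA
  have hk0 : (0 : ℝ) < (k : ℝ) + 1 := by positivity
  obtain ⟨D, hD⟩ : ∃ D : ℝ, D = 32 * (A : ℝ) ^ 2 * (k + 1) := ⟨_, rfl⟩
  have hD0 : 0 < D := by rw [hD]; positivity
  obtain ⟨E, hE⟩ : ∃ E : ℝ, E = 2 * (A : ℝ) * (k + 1) := ⟨_, rfl⟩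
  have hE0 : 0 < E := by rw [hE]; positivity
  have hyl : ∀ i, 0 < y i * lam := fun i => mul_pos (hy i).1 h0
  -- the threshold
  obtain ⟨B1, hB1⟩ : ∃ B1 : ℕ, ∀ B : ℕ, B1 ≤ B →
      1 ≤ ((B : ℝ) / D) ^ (y 0 * lam) / E ∧ D ≤ (B : ℝ) := by
    have t1 : Filter.Tendsto (fun B : ℕ => ((B : ℝ) / D) ^ (y 0 * lam)) Filter.atTop Filter.atTop :=
      (tendsto_rpow_atTop (hyl 0)).comp
        ((tendsto_natCast_atTop_atTop (R := ℝ)).atTop_div_const hD0)
    have t2 := (t1.eventually_ge_atTop E).and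
      ((tendsto_natCast_atTop_atTop (R := ℝ)).eventually_ge_atTop D)
    obtain ⟨B1, hB1⟩ := Filter.eventually_atTop.1 t2
    refine ⟨B1, fun B hB => ?_⟩
    obtain ⟨a, b⟩ := hB1 B hB
    refine ⟨?_, b⟩
    rw [le_div_iff₀ hE0]
    linarith
  obtain ⟨f, hf⟩ : ∃ f : Fin (k + 4) → ℝ, f = fun i => (1 / D) ^ (y i * lam) / E / 2 := ⟨_, rfl⟩
  have hf0 : ∀ i, 0 < f i := by
    intro i
    rw [hf]
    exact div_pos (div_pos (Real.rpow_pos_of_pos (div_pos one_pos hD0) _) hE0) two_pos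
  refine ⟨3 / 16 * (f (iw k) * f 0 * ∏ i : Fin k, f (iv i)),
    mul_pos (by norm_num) (mul_pos (mul_pos (hf0 _) (hf0 _)) (Finset.prod_pos fun i _ => hf0 _)),
    B1, fun B hB => ?_⟩
  obtain ⟨hy1, hDB⟩ := hB1 B hB
  have hB0 : (0 : ℝ) < B := lt_of_lt_of_le hD0 hDB
  have hBD1 : 1 ≤ (B : ℝ) / D := by
    rw [le_div_iff₀ hD0]
    linarith
  obtain ⟨g, hg⟩ : ∃ g : Fin (k + 4) → ℝ, g = fun i => ((B : ℝ) / D) ^ (y i * lam) / E := ⟨_, rfl⟩
  have hgm : Monotone g := by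
    intro i j hij
    rw [hg]
    exact div_le_div_of_nonneg_right (Real.rpow_le_rpow_of_exponent_le hBD1
      (mul_le_mul_of_nonneg_right (hmy hij) h0.le)) hE0.le
  have hg1 : ∀ i, 1 ≤ g i := by
    intro i
    refine le_trans ?_ (hgm (Fin.zero_le i))
    rw [hg]
    exact hy1
  obtain ⟨Z, hZ⟩ : ∃ Z : Fin (k + 4) → ℕ, Z = fun i => ⌊g i⌋₊ := ⟨_, rfl⟩
  have hZm : Monotone Z := by
    intro i j hij
    rw [hZ]
    exact Nat.floor_mono (hgm hij)
  have hZ1 : ∀ i, 1 ≤ Z i := by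
    intro i
    rw [hZ]
    exact Nat.le_floor (by exact_mod_cast hg1 i)
  have hZg : ∀ i, (Z i : ℝ) ≤ g i := by
    intro i
    rw [hZ]
    exact Nat.floor_le (by linarith [hg1 i])
  have hgZ : ∀ i, g i / 2 ≤ Z i := by
    intro i
    have h2 : g i < (Z i : ℝ) + 1 := by
      rw [hZ]
      exact Nat.lt_floor_add_one (g i)
    have h3 : (1 : ℝ) ≤ Z i := by exact_mod_cast hZ1 i
    linarith
  -- the power of two
  obtain ⟨K, hK⟩ : ∃ K : Fin (k + 4) → ℕ, K = fun i => A * ((k + 1) * Z i) := ⟨_, rfl⟩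
  have hKi : ∀ i, K i = A * ((k + 1) * Z i) := by
    intro i
    rw [hK]
  have hK1 : ∀ i, 1 ≤ K i := by
    intro i
    rw [hKi]
    exact Nat.mul_pos hA (Nat.mul_pos (Nat.succ_pos k) (hZ1 i))
  have hKr : ∀ i, 2 * (K i : ℝ) ≤ ((B : ℝ) / D) ^ (y i * lam) := by
    intro i
    have h2 : (Z i : ℝ) * E ≤ ((B : ℝ) / D) ^ (y i * lam) := by
      have h3 := hZg i
      rw [hg] at h3
      exact (le_div_iff₀ hE0).1 h3
    rw [hKi]
    push_cast
    calc 2 * ((A : ℝ) * (((k : ℝ) + 1) * Z i)) = (Z i : ℝ) * E := by rw [hE]; ring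
      _ ≤ _ := h2
  have hKB : K (iw k) ≤ B := by
    have h2 : ((B : ℝ) / D) ^ (y (iw k) * lam) ≤ (B : ℝ) / D := by
      calc ((B : ℝ) / D) ^ (y (iw k) * lam) ≤ ((B : ℝ) / D) ^ (1 : ℝ) :=
            Real.rpow_le_rpow_of_exponent_le hBD1
              (mul_le_one₀ (hy (iw k)).2 h0.le h1)
        _ = _ := Real.rpow_one _
    have h3 : (B : ℝ) / D ≤ B := by
      apply div_le_self hB0.le
      rw [hD]
      have hA1 : (1 : ℝ) ≤ (A : ℝ) ^ 2 := one_le_pow₀ (by exact_mod_cast hA)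
      nlinarith [Nat.cast_nonneg (α := ℝ) k, mul_nonneg (Nat.cast_nonneg (α := ℝ) k)
        (by linarith : (0 : ℝ) ≤ (A : ℝ) ^ 2 - 1)]
    have h4 : (0 : ℝ) ≤ K (iw k) := Nat.cast_nonneg _
    have h6 := hKr (iw k)
    have h5 : (K (iw k) : ℝ) ≤ B := by linarith
    exact_mod_cast h5
  obtain ⟨m, hm⟩ : ∃ m : ℕ, m = Nat.log 2 (B / K (iw k)) := ⟨_, rfl⟩
  have hKw : 0 < K (iw k) := hK1 _
  have hBK : B / K (iw k) ≠ 0 := (Nat.div_pos hKB hKw).ne'
  have hm1 : 2 ^ m * K (iw k) ≤ B := by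
    have h2 : 2 ^ m ≤ B / K (iw k) := by
      rw [hm]
      exact Nat.pow_log_le_self 2 hBK
    exact (Nat.le_div_iff_mul_le hKw).1 h2
  have hm2 : B < 2 ^ (m + 1) * K (iw k) := by
    have h2 : B / K (iw k) < 2 ^ (m + 1) := by
      rw [hm]
      exact Nat.lt_pow_succ_log_self (by norm_num) _
    exact (Nat.div_lt_iff_lt_mul hKw).1 h2
  -- the parameters
  obtain ⟨P, hP⟩ : ∃ P : Finset (ℕ × ℕ), P = (Finset.Icc 1 (Z (iw k)) ×ˢ Finset.Icc 1 (Z 0)).filter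
    (fun w => Nat.Coprime w.1 w.2 ∧ ¬ 2 ∣ w.2 ∧ Z (iw k) < 16 * w.1) := ⟨_, rfl⟩
  obtain ⟨F, hF⟩ : ∃ F : Finset ((ℕ × ℕ) × (Fin k → ℕ)),
    F = P ×ˢ Fintype.piFinset (fun i : Fin k => Finset.Icc 1 (Z (iv i))) := ⟨_, rfl⟩
  have hFc : F.card = P.card * ∏ i : Fin k, Z (iv i) := by
    rw [hF, Finset.card_product, Fintype.card_piFinset]
    simp
  have hmem : ∀ q ∈ F, (1 ≤ q.1.1 ∧ q.1.1 ≤ Z (iw k)) ∧ (1 ≤ q.1.2 ∧ q.1.2 ≤ Z 0) ∧
      Nat.Coprime q.1.1 q.1.2 ∧ ¬ 2 ∣ q.1.2 ∧ Z (iw k) < 16 * q.1.1 ∧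
      ∀ i, 1 ≤ q.2 i ∧ q.2 i ≤ Z (iv i) := by
    intro q hq
    rw [hF, Finset.mem_product, hP, Finset.mem_filter, Finset.mem_product, Finset.mem_Icc,
      Finset.mem_Icc, Fintype.mem_piFinset] at hq
    obtain ⟨⟨⟨a, b⟩, c, d, e⟩, f⟩ := hq
    exact ⟨a, b, c, d, e, fun i => Finset.mem_Icc.1 (f i)⟩
  -- the points
  have hpt : ∀ q : (ℕ × ℕ) × (Fin k → ℕ), ∃ x : Fin (k + 2 + 1) → ℤ, q ∈ F →
      (∀ d : ℤ, (∀ j, d ∣ x j) → IsUnit d) ∧
      (∀ i, form L i x ∣ (A : ℤ) * famW m q.1.1 q.1.2 q.2 i) ∧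
      (∀ i j, famW m q.1.1 q.1.2 q.2 i * (rel L j * form L j x) =
        famW m q.1.1 q.1.2 q.2 j * (rel L i * form L i x)) ∧
      (∀ N : ℕ, (∀ i, (famW m q.1.1 q.1.2 q.2 i).natAbs ≤ N) → ht x ≤ A * N) ∧
      (∀ i, (famW m q.1.1 q.1.2 q.2 i).natAbs ≤ A * ht x) := by
    intro q
    by_cases hq : q ∈ F
    · obtain ⟨-, -, c, d, -, -⟩ := hmem q hq
      obtain ⟨x, hx⟩ := hR (famW m q.1.1 q.1.2 q.2) (famW_sum _ _ _ _) (famW_prim _ _ _ _ c d)
      exact ⟨x, fun _ => hx⟩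
    · exact ⟨0, fun h => absurd h hq⟩
  choose X hX using hpt
  have hne : ∀ q ∈ F, ∀ i, form L i (X q) ≠ 0 := by
    intro q hq i h
    obtain ⟨a, b, -, -, -, f⟩ := hmem q hq
    obtain ⟨s, t, e1, -, e3, -⟩ := famW_entry m q.1.1 q.1.2 q.2 Z hZm a b f i
    have h2 := (hX q hq).2.1 i
    rw [h, zero_dvd_iff, mul_eq_zero] at h2
    rcases h2 with h2 | h2
    · have : (A : ℤ) ≠ 0 := by exact_mod_cast (by omega : A ≠ 0)
      exact this h2
    · rw [h2, Int.natAbs_zero] at e1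
      have : 0 < 2 ^ s * t := Nat.mul_pos (pow_pos (by norm_num) s) e3
      omega
  have hfin : (ptsW S L y lam B).Finite := by
    apply (Set.finite_Icc (fun _ : Fin (k + 2 + 1) => (-(B : ℤ))) (fun _ => (B : ℤ))).subset
    intro x hx
    have hx2 : ∀ j, (x j).natAbs ≤ B := fun j => (le_ht x j).trans hx.2.2
    refine ⟨fun j => ?_, fun j => ?_⟩
    · have := hx2 j
      change -(B : ℤ) ≤ x j
      omega
    · have := hx2 j
      change x j ≤ (B : ℤ)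
      omega
  have hsub : ((F.image X : Finset (Fin (k + 2 + 1) → ℤ)) : Set (Fin (k + 2 + 1) → ℤ)) ⊆
      ptsW S L y lam B := by
    intro x hx
    rw [Finset.mem_coe, Finset.mem_image] at hx
    obtain ⟨q, hq, rfl⟩ := hx
    obtain ⟨a, b, -, -, e, f⟩ := hmem q hq
    obtain ⟨g1, g2, -, g4, g5⟩ := hX q hq
    refine ⟨g1, fun i => ⟨hne q hq i, ?_⟩, ?_⟩
    · -- the radical
      obtain ⟨s, t, e1, -, e3, e4, -⟩ := famW_entry m q.1.1 q.1.2 q.2 Z hZm a b f i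
      have r1 : radS S (form L i (X q)) ≤ A * (2 * t) := by
        apply radS_le
        · exact (Nat.mul_pos hA (Nat.mul_pos (by norm_num) e3)).ne'
        · intro p hp hpd
          have h2 : p ∣ A * (2 ^ s * t) := by
            have h3 : (form L i (X q)).natAbs ∣ ((A : ℤ) * famW m q.1.1 q.1.2 q.2 i).natAbs :=
              Int.natAbs_dvd_natAbs.2 (g2 i)
            rw [Int.natAbs_mul, Int.natAbs_natCast, e1] at h3
            exact hpd.trans h3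
          rcases (Nat.Prime.dvd_mul hp).1 h2 with h3 | h3
          · exact Dvd.dvd.mul_right h3 _
          · rcases (Nat.Prime.dvd_mul hp).1 h3 with h4 | h4
            · exact Dvd.dvd.mul_left (Dvd.dvd.mul_right (hp.dvd_of_dvd_pow h4) _) _
            · exact Dvd.dvd.mul_left (Dvd.dvd.mul_left h4 _) _
      have r2 : radS S (form L i (X q)) ≤ 2 * K i := by
        calc radS S (form L i (X q)) ≤ A * (2 * t) := r1
          _ ≤ A * (2 * ((k + 1) * Z i)) := Nat.mul_le_mul_left _ (Nat.mul_le_mul_left _ e4)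
          _ = 2 * K i := by rw [hKi]; ring
      have r3 : (B : ℝ) / D ≤ ht (X q) := by
        have h2 := g5 (iw k)
        rw [famW_w, Int.natAbs_natCast] at h2
        have h3 : (B : ℝ) ≤ 2 * 2 ^ m * K (iw k) := by
          have : B ≤ 2 * 2 ^ m * K (iw k) := by
            calc B ≤ 2 ^ (m + 1) * K (iw k) := hm2.le
              _ = 2 * 2 ^ m * K (iw k) := by ring
          exact_mod_cast this
        have h4 : (Z (iw k) : ℝ) ≤ 16 * q.1.1 := by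
          have : Z (iw k) ≤ 16 * q.1.1 := e.le
          exact_mod_cast this
        have h5 : (2 : ℝ) ^ m * q.1.1 ≤ A * ht (X q) := by exact_mod_cast h2
        rw [div_le_iff₀ hD0, hD]
        have h6 : (K (iw k) : ℝ) = A * ((k + 1) * Z (iw k)) := by rw [hKi]; push_cast; ring
        calc (B : ℝ) ≤ 2 * 2 ^ m * K (iw k) := h3
          _ = 2 * A * (k + 1) * (2 ^ m * Z (iw k)) := by rw [h6]; ring
          _ ≤ 2 * A * (k + 1) * (2 ^ m * (16 * q.1.1)) := by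
              apply mul_le_mul_of_nonneg_left _ (by positivity)
              exact mul_le_mul_of_nonneg_left h4 (by positivity)
          _ = 32 * A * (k + 1) * (2 ^ m * q.1.1) := by ring
          _ ≤ 32 * A * (k + 1) * (A * ht (X q)) :=
              mul_le_mul_of_nonneg_left h5 (by positivity)
          _ = _ := by ring
      calc (radS S (form L i (X q)) : ℝ) ≤ 2 * K i := by exact_mod_cast r2
        _ ≤ ((B : ℝ) / D) ^ (y i * lam) := hKr i
        _ ≤ (ht (X q) : ℝ) ^ (y i * lam) :=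
            Real.rpow_le_rpow (div_nonneg hB0.le hD0.le) r3 (hyl i).le
    · -- the height
      have h2 : ht (X q) ≤ A * (2 ^ m * ((k + 1) * Z (iw k))) := by
        apply g4
        intro i
        obtain ⟨s, t, e1, e2, -, -, e4⟩ := famW_entry m q.1.1 q.1.2 q.2 Z hZm a b f i
        rw [e1]
        exact Nat.mul_le_mul (Nat.pow_le_pow_right (by norm_num) e2) e4
      calc ht (X q) ≤ A * (2 ^ m * ((k + 1) * Z (iw k))) := h2
        _ = 2 ^ m * K (iw k) := by rw [hKi]; ring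
        _ ≤ B := hm1
  have hinj : Set.InjOn X (F : Set ((ℕ × ℕ) × (Fin k → ℕ))) := by
    intro q hq q' hq' hqq
    have hq := Finset.mem_coe.1 hq
    have hq' := Finset.mem_coe.1 hq'
    obtain ⟨-, b, c, -, -, -⟩ := hmem q hq
    obtain ⟨-, -, c', -, -, -⟩ := hmem q' hq'
    have g3 := (hX q hq).2.2.1
    have g3' := (hX q' hq').2.2.1
    rw [← hqq] at g3'
    have hg : ∀ i, rel L i * form L i (X q) ≠ 0 := by
      intro i
      apply mul_ne_zero _ (hne q hq i)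
      unfold rel
      exact mul_ne_zero (pow_ne_zero _ (by norm_num)) (hL i)
    have hpr : ∀ i j, famW m q.1.1 q.1.2 q.2 i * famW m q'.1.1 q'.1.2 q'.2 j =
        famW m q.1.1 q.1.2 q.2 j * famW m q'.1.1 q'.1.2 q'.2 i := by
      intro i j
      apply mul_right_cancel₀ (mul_ne_zero (hg j) (hg i))
      have e1 := g3 i j
      have e2 := g3' i j
      calc famW m q.1.1 q.1.2 q.2 i * famW m q'.1.1 q'.1.2 q'.2 j *
            (rel L j * form L j (X q) * (rel L i * form L i (X q)))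
          = (famW m q.1.1 q.1.2 q.2 i * (rel L j * form L j (X q))) *
            (famW m q'.1.1 q'.1.2 q'.2 j * (rel L i * form L i (X q))) := by ring
        _ = (famW m q.1.1 q.1.2 q.2 j * (rel L i * form L i (X q))) *
            (famW m q'.1.1 q'.1.2 q'.2 i * (rel L j * form L j (X q))) := by rw [e1, ← e2]
        _ = _ := by ring
    obtain ⟨r1, r2, r3⟩ := famW_inj m q.1.1 q.1.2 q'.1.1 q'.1.2 q.2 q'.2 b.1 c c' hpr
    exact Prod.ext (Prod.ext r1 r2) r3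
  have hcard : F.card ≤ (ptsW S L y lam B).ncard := by
    rw [← Finset.card_image_of_injOn hinj, ← Set.ncard_coe_finset]
    exact Set.ncard_le_ncard hsub hfin
  have hPc := pairs_card (Z (iw k)) (Z 0)
  rw [← hP] at hPc
  have hfinal : 3 / 16 * ((Z (iw k) : ℝ) * Z 0 * ∏ i : Fin k, (Z (iv i) : ℝ)) ≤
      ((ptsW S L y lam B).ncard : ℝ) := by
    calc 3 / 16 * ((Z (iw k) : ℝ) * Z 0 * ∏ i : Fin k, (Z (iv i) : ℝ))
        = 3 / 16 * ((Z (iw k) : ℝ) * Z 0) * ∏ i : Fin k, (Z (iv i) : ℝ) := by ring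
      _ ≤ (P.card : ℝ) * ∏ i : Fin k, (Z (iv i) : ℝ) :=
          mul_le_mul_of_nonneg_right hPc (Finset.prod_nonneg fun i _ => Nat.cast_nonneg _)
      _ = ((P.card * ∏ i : Fin k, Z (iv i) : ℕ) : ℝ) := by push_cast; ring
      _ = (F.card : ℝ) := by rw [hFc]
      _ ≤ _ := by exact_mod_cast hcard
  have hfg : ∀ i, f i * (B : ℝ) ^ (y i * lam) ≤ Z i := by
    intro i
    refine le_trans (le_of_eq ?_) (hgZ i)
    have h2 : ((B : ℝ) / D) ^ (y i * lam) = (1 / D) ^ (y i * lam) * (B : ℝ) ^ (y i * lam) := by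
      rw [← Real.mul_rpow (by positivity) hB0.le]
      congr 1
      ring
    rw [hf, hg]
    change (1 / D) ^ (y i * lam) / E / 2 * (B : ℝ) ^ (y i * lam) = ((B : ℝ) / D) ^ (y i * lam) / E / 2
    rw [h2]
    ring
  have hfB0 : ∀ i, 0 ≤ f i * (B : ℝ) ^ (y i * lam) := fun i =>
    mul_nonneg (hf0 i).le (Real.rpow_nonneg hB0.le _)
  have hsum : (∑ i, y i - y (Fin.last (k + 2 + 1)) - y 1) * lam =
      y (iw k) * lam + y 0 * lam + ∑ i : Fin k, y (iv i) * lam := by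
    have h2 : ∑ i : Fin (k + 2 + 2), y i = y 0 + (y 1 + ((∑ i : Fin k, y (iv i) + y (iw k)) +
        y (Fin.last (k + 2 + 1)))) := by
      rw [Fin.sum_univ_succ, Fin.sum_univ_succ, Fin.sum_univ_castSucc, Fin.sum_univ_castSucc]
      rfl
    rw [h2, ← Finset.sum_mul]
    ring
  have hpow : (B : ℝ) ^ ((∑ i, y i - y (Fin.last (k + 2 + 1)) - y 1) * lam) =
      (B : ℝ) ^ (y (iw k) * lam) * (B : ℝ) ^ (y 0 * lam) *
        ∏ i : Fin k, (B : ℝ) ^ (y (iv i) * lam) := by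
    rw [hsum, Real.rpow_add hB0, Real.rpow_add hB0, Real.rpow_sum_of_pos hB0]
  calc 3 / 16 * (f (iw k) * f 0 * ∏ i : Fin k, f (iv i)) *
        (B : ℝ) ^ ((∑ i, y i - y (Fin.last (k + 2 + 1)) - y 1) * lam)
      = 3 / 16 * ((f (iw k) * (B : ℝ) ^ (y (iw k) * lam)) * (f 0 * (B : ℝ) ^ (y 0 * lam)) *
          ∏ i : Fin k, (f (iv i) * (B : ℝ) ^ (y (iv i) * lam))) := by
        rw [hpow, Finset.prod_mul_distrib]
        ring
    _ ≤ 3 / 16 * ((Z (iw k) : ℝ) * Z 0 * ∏ i : Fin k, (Z (iv i) : ℝ)) := by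
        apply mul_le_mul_of_nonneg_left _ (by norm_num)
        apply mul_le_mul
        · exact mul_le_mul (hfg _) (hfg _) (hfB0 _) (Nat.cast_nonneg _)
        · exact Finset.prod_le_prod (fun i _ => hfB0 _) (fun i _ => hfg _)
        · exact Finset.prod_nonneg fun i _ => hfB0 _
        · positivity
    _ ≤ _ := hfinal

/-- **Lower bound**, separate bounds for the radicals: for every `n ≥ 2`, every `n + 2` forms in general
position, every finite `S`, every `0 < lam ≤ 1` and `0 < y_0 ≤ … ≤ y_(n+1) ≤ 1`. -/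
theorem low_w (n : ℕ) (hn : 2 ≤ n) (lam : ℝ) (h0 : 0 < lam) (h1 : lam ≤ 1)
    (y : Fin (n + 2) → ℝ) (hy : ∀ i, 0 < y i ∧ y i ≤ 1) (hm : Monotone y) (S : Finset ℕ)
    (L : Matrix (Fin (n + 2)) (Fin (n + 1)) ℤ) (hL : ∀ i, minor L i ≠ 0) :
    ∃ c : ℝ, 0 < c ∧ ∃ B₀ : ℕ, ∀ B : ℕ, B₀ ≤ B →
      c * (B : ℝ) ^ ((∑ i, y i - y (Fin.last (n + 1)) - y 1) * lam) ≤
        ((ptsW S L y lam B).ncard : ℝ) := by
  obtain ⟨k, rfl⟩ : ∃ k, n = k + 2 := ⟨n - 2, by omega⟩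
  obtain ⟨A, hA, hR⟩ := realize L hL
  refine low_w_aux S L hL A hA ?_ lam h0 h1 y hy hm
  intro u hu hp
  obtain ⟨x, hx, ⟨c, -, hc⟩, hd, hs, ⟨i, hi⟩⟩ := hR u hu hp
  refine ⟨x, hx, hd, fun i j => ?_, fun N hN => ?_, hs⟩
  · rw [hc i, hc j]
    ring
  · exact hi.trans (Nat.mul_le_mul_left A (hN i))

end Pool.Agent.Helper24.TW
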