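import Mathlib

/-!
Project TW (MP_464c42_nt): coprime pairs in an unequal box, the second odd, the first large.
-/

set_option autoImplicit false

namespace Pool.Agent.Helper24.TW

private theorem odd_sum (n : ℕ) :
    ∑ j ∈ Finset.Icc 1 n, (1 : ℝ) / ((2 * j + 1 : ℕ) : ℝ) ^ 2 ≤ 1 / 4 := by
  have key : ∑ j ∈ Finset.Icc 1 n, (1 : ℝ) / ((2 * j + 1 : ℕ) : ℝ) ^ 2 ≤
      1 / 4 - 1 / (4 * ((n : ℝ) + 1)) := by
    induction n with
    | zero => norm_num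
    | succ n ih =>
      rw [Finset.sum_Icc_succ_top (by omega)]
      have h1 : (1 : ℝ) / ((2 * (n + 1) + 1 : ℕ) : ℝ) ^ 2 ≤
          1 / (4 * ((n : ℝ) + 1)) - 1 / (4 * (((n + 1 : ℕ) : ℝ) + 1)) := by
        push_cast
        have hn : (0 : ℝ) ≤ n := Nat.cast_nonneg n
        rw [div_sub_div _ _ (by positivity) (by positivity),
          div_le_div_iff₀ (by positivity) (by positivity)]
        nlinarith
      linarith
  have : (0 : ℝ) ≤ 1 / (4 * ((n : ℝ) + 1)) := by positivity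
  linarith

/-- Pairs of coprime numbers in an unequal box, the second odd, the first large. -/
theorem pairs2 (Z0 Z : ℕ) (_h0 : 1 ≤ Z0) (_h : 1 ≤ Z) :
    3 / 16 * ((Z0 : ℝ) * Z) ≤
      (((Finset.Icc 1 Z ×ˢ Finset.Icc 1 Z0).filter
        (fun w => Nat.Coprime w.1 w.2 ∧ ¬ 2 ∣ w.2 ∧ Z < 16 * w.1)).card : ℝ) := by
  classical
  obtain ⟨R, hR⟩ : ∃ R : Finset (ℕ × ℕ), R =
    (Finset.Icc 1 Z ×ˢ Finset.Icc 1 Z0).filter
      (fun w => Nat.Coprime w.1 w.2 ∧ ¬ 2 ∣ w.2 ∧ Z < 16 * w.1) := ⟨_, rfl⟩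
  rw [← hR]
  obtain ⟨O, hO⟩ : ∃ O : Finset ℕ, O = (Finset.range ((Z0 + 1) / 2)).image (fun j => 2 * j + 1) :=
    ⟨_, rfl⟩
  have hOc : O.card = (Z0 + 1) / 2 := by
    rw [hO, Finset.card_image_of_injective _ (fun a b hab => by simpa using hab),
      Finset.card_range]
  obtain ⟨B, hB⟩ : ∃ B : Finset (ℕ × ℕ), B =
    (Finset.Icc 1 Z0).biUnion (fun j =>
      (Finset.Icc 1 (Z / (2 * j + 1)) ×ˢ Finset.Icc 1 (Z0 / (2 * j + 1))).image
        (fun w => ((2 * j + 1) * w.1, (2 * j + 1) * w.2))) := ⟨_, rfl⟩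
  have hsub : Finset.Ioc (Z / 16) Z ×ˢ O ⊆ R ∪ B := by
    intro w hw
    rw [Finset.mem_product, Finset.mem_Ioc] at hw
    obtain ⟨⟨h1, h2⟩, h3⟩ := hw
    rw [hO, Finset.mem_image] at h3
    obtain ⟨i, hi, hi2⟩ := h3
    rw [Finset.mem_range] at hi
    have hw1 : 1 ≤ w.1 := by omega
    have hw2 : 1 ≤ w.2 := by omega
    have hw3 : w.2 ≤ Z0 := by omega
    rw [Finset.mem_union]
    by_cases hc : Nat.Coprime w.1 w.2
    · left
      rw [hR, Finset.mem_filter, Finset.mem_product, Finset.mem_Icc, Finset.mem_Icc]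
      exact ⟨⟨⟨hw1, h2⟩, hw2, hw3⟩, hc, by omega, by omega⟩
    · right
      have hg : Nat.gcd w.1 w.2 ≠ 1 := hc
      have hgpos : 0 < Nat.gcd w.1 w.2 := Nat.gcd_pos_of_pos_left _ (by omega)
      have hgodd : ¬ 2 ∣ Nat.gcd w.1 w.2 := by
        intro h
        have := h.trans (Nat.gcd_dvd_right w.1 w.2)
        omega
      obtain ⟨j, hj⟩ : ∃ j, Nat.gcd w.1 w.2 = 2 * j + 1 := ⟨Nat.gcd w.1 w.2 / 2, by omega⟩
      obtain ⟨a, ha⟩ := Nat.gcd_dvd_left w.1 w.2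
      obtain ⟨b, hb⟩ := Nat.gcd_dvd_right w.1 w.2
      have hgle : Nat.gcd w.1 w.2 ≤ Z0 :=
        (Nat.le_of_dvd (by omega) (Nat.gcd_dvd_right _ _)).trans hw3
      rw [hj] at ha hb hgpos hg hgle
      rw [hB, Finset.mem_biUnion]
      refine ⟨j, by rw [Finset.mem_Icc]; omega, ?_⟩
      rw [Finset.mem_image]
      refine ⟨(a, b), ?_, ?_⟩
      · rw [Finset.mem_product, Finset.mem_Icc, Finset.mem_Icc]
        refine ⟨⟨?_, ?_⟩, ⟨?_, ?_⟩⟩
        · rcases Nat.eq_zero_or_pos a with h | h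
          · rw [h, mul_zero] at ha; omega
          · exact h
        · rw [Nat.le_div_iff_mul_le hgpos, mul_comm]
          exact ha ▸ h2
        · rcases Nat.eq_zero_or_pos b with h | h
          · rw [h, mul_zero] at hb; omega
          · exact h
        · rw [Nat.le_div_iff_mul_le hgpos, mul_comm]
          exact hb ▸ hw3
      · exact Prod.ext ha.symm hb.symm
  have hcard : (Z - Z / 16) * ((Z0 + 1) / 2) ≤ R.card + B.card := by
    have h1 := (Finset.card_le_card hsub).trans (Finset.card_union_le R B)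
    rwa [Finset.card_product, Nat.card_Ioc, hOc] at h1
  have hBc : (B.card : ℝ) ≤ 1 / 4 * ((Z0 : ℝ) * Z) := by
    have h1 : B.card ≤ ∑ j ∈ Finset.Icc 1 Z0, Z / (2 * j + 1) * (Z0 / (2 * j + 1)) := by
      rw [hB]
      refine Finset.card_biUnion_le.trans ?_
      apply Finset.sum_le_sum
      intro j _
      refine Finset.card_image_le.trans ?_
      rw [Finset.card_product, Nat.card_Icc, Nat.card_Icc]
      simp only [Nat.add_sub_cancel]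
      exact le_rfl
    have h2 : ((∑ j ∈ Finset.Icc 1 Z0, Z / (2 * j + 1) * (Z0 / (2 * j + 1)) : ℕ) : ℝ) ≤
        ∑ j ∈ Finset.Icc 1 Z0, (1 : ℝ) / ((2 * j + 1 : ℕ) : ℝ) ^ 2 * ((Z0 : ℝ) * Z) := by
      rw [Nat.cast_sum]
      apply Finset.sum_le_sum
      intro j _
      rw [Nat.cast_mul]
      have h3 : ((Z / (2 * j + 1) : ℕ) : ℝ) ≤ (Z : ℝ) / ((2 * j + 1 : ℕ) : ℝ) := Nat.cast_div_le
      have h4 : ((Z0 / (2 * j + 1) : ℕ) : ℝ) ≤ (Z0 : ℝ) / ((2 * j + 1 : ℕ) : ℝ) :=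
        Nat.cast_div_le
      calc ((Z / (2 * j + 1) : ℕ) : ℝ) * ((Z0 / (2 * j + 1) : ℕ) : ℝ)
          ≤ (Z : ℝ) / ((2 * j + 1 : ℕ) : ℝ) * ((Z0 : ℝ) / ((2 * j + 1 : ℕ) : ℝ)) :=
            mul_le_mul h3 h4 (Nat.cast_nonneg _) (by positivity)
        _ = _ := by ring
    rw [← Finset.sum_mul] at h2
    calc (B.card : ℝ) ≤ ((∑ j ∈ Finset.Icc 1 Z0, Z / (2 * j + 1) * (Z0 / (2 * j + 1)) : ℕ) : ℝ) := by
          exact_mod_cast h1
      _ ≤ _ := h2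
      _ ≤ _ := mul_le_mul_of_nonneg_right (odd_sum Z0) (by positivity)
  have hA : (15 : ℝ) / 32 * ((Z0 : ℝ) * Z) ≤ (((Z - Z / 16) * ((Z0 + 1) / 2) : ℕ) : ℝ) := by
    have h1 : 15 * Z ≤ 16 * (Z - Z / 16) := by omega
    have h2 : Z0 ≤ 2 * ((Z0 + 1) / 2) := by omega
    have h3 : 15 * Z * Z0 ≤ 16 * (Z - Z / 16) * (2 * ((Z0 + 1) / 2)) := Nat.mul_le_mul h1 h2
    have h4 : 15 * Z * Z0 ≤ 32 * ((Z - Z / 16) * ((Z0 + 1) / 2)) := by
      calc 15 * Z * Z0 ≤ 16 * (Z - Z / 16) * (2 * ((Z0 + 1) / 2)) := h3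
        _ = _ := by ring
    have h5 : (15 : ℝ) * Z * Z0 ≤ 32 * (((Z - Z / 16) * ((Z0 + 1) / 2) : ℕ) : ℝ) := by
      exact_mod_cast h4
    linarith
  have hcard' : (((Z - Z / 16) * ((Z0 + 1) / 2) : ℕ) : ℝ) ≤ (R.card : ℝ) + B.card := by
    exact_mod_cast hcard
  have hpos : (0 : ℝ) ≤ (Z0 : ℝ) * Z := by positivity
  linarith

end Pool.Agent.Helper24.TW
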